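import Pool.Agent.W886.LS.Stm0

/-! Certificates for nondeterministic exponential time with linear exponent. -/

set_option autoImplicit false

open Pool.Agent.NPC Pool.Agent.H620R2.Gauge Pool.Agent.H622R2.Exp

namespace Pool.Agent.W891.LS.NEL

theorem run_local' (M : Alg) (A : Oracle) (x : List Bool) (n : ℕ) (a : List Bool) :
    ∃ U : Finset (List Bool), U.card ≤ n ∧
      ∀ A' : Oracle, (∀ u ∈ U, A' u = A u) → M.run A' x n a = M.run A x n a := by
  classical
  induction n generalizing a with
  | zero => exact ⟨∅, by simp, fun A' _ => rfl⟩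
  | succ n ih =>
    rcases hq : M.D (pairBits x a) with _ | ⟨c, q⟩
    · exact ⟨∅, by simp, fun A' _ => by simp only [Alg.run, hq]⟩
    · cases c with
      | true => exact ⟨∅, by simp, fun A' _ => by simp only [Alg.run, hq]⟩
      | false =>
        obtain ⟨Q, h1, h3⟩ := ih (a ++ [A q])
        refine ⟨insert q Q, (Finset.card_insert_le _ _).trans (by omega), ?_⟩
        intro A' hA'
        simp only [Alg.run, hq]
        rw [hA' q (Finset.mem_insert_self _ _)]
        exact h3 A' fun r hr => hA' r (Finset.mem_insert_of_mem hr)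

theorem poly_le (p : Polynomial ℕ) : ∃ D : ℕ, ∀ m : ℕ, p.eval m ≤ (m + 2) ^ D := by
  induction p using Polynomial.induction_on' with
  | add p q hp hq =>
    obtain ⟨D1, h1⟩ := hp
    obtain ⟨D2, h2⟩ := hq
    refine ⟨max D1 D2 + 1, fun m => ?_⟩
    have e1 : (m + 2) ^ D1 ≤ (m + 2) ^ max D1 D2 :=
      Nat.pow_le_pow_right (by omega) (le_max_left _ _)
    have e2 : (m + 2) ^ D2 ≤ (m + 2) ^ max D1 D2 :=
      Nat.pow_le_pow_right (by omega) (le_max_right _ _)
    rw [Polynomial.eval_add, pow_succ]
    have := h1 m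
    have := h2 m
    nlinarith
  | monomial n a =>
    refine ⟨a + n, fun m => ?_⟩
    rw [Polynomial.eval_monomial, pow_add]
    refine Nat.mul_le_mul ?_ (Nat.pow_le_pow_left (by omega) n)
    exact (Nat.lt_two_pow_self).le.trans (Nat.pow_le_pow_left (by omega) a)

theorem length_pair (w y : List Bool) : (pairBits w y).length = 2 * w.length + 1 + y.length := by
  unfold pairBits
  induction w with
  | nil => simp; omega
  | cons b w ih =>
    simp only [List.flatMap_cons, List.cons_append, List.nil_append, List.length_cons] at ih ⊢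
    rw [ih]
    omega

theorem task : Pool.Agent.W886.LS.S_NEL := by
  classical
  intro M q hq
  obtain ⟨c, rfl⟩ := hq
  obtain ⟨D, hD⟩ := poly_le M.p
  refine ⟨(2 * c + 3) * D, ?_⟩
  rintro x A ⟨w, hw, hout⟩
  obtain ⟨U, hU, hU'⟩ := run_local' M (fun y => A (idx y)) (pairBits w (str x))
    (M.p.eval (pairBits w (str x)).length) []
  refine ⟨U.image idx, ?_, ?_⟩
  · refine Finset.card_image_le.trans (hU.trans ((hD _).trans ?_))
    rw [pow_mul]
    refine Nat.pow_le_pow_left ?_ D
    rw [length_pair]
    have hn : 2 ^ (str x).length ≤ x + 1 := by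
      rw [length_str]
      exact Nat.pow_log_le_self 2 (by omega)
    have hn' : (str x).length ≤ x := by
      have := Nat.lt_two_pow_self (n := (str x).length)
      omega
    have hw' : w.length ≤ (x + 2) ^ (2 * c) := by
      refine hw.trans ?_
      simp only [Polynomial.eval_mul, Polynomial.eval_C, Polynomial.eval_add, Polynomial.eval_X,
        Polynomial.eval_one]
      rw [mul_comm c, pow_mul, pow_mul]
      refine Nat.pow_le_pow_left ?_ c
      rw [pow_succ]
      nlinarith
    have h1 : (x + 2) ^ (2 * c + 3) = (x + 2) ^ (2 * c) * (x + 2) ^ 3 := pow_add _ _ _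
    have h2 : 1 ≤ (x + 2) ^ (2 * c) := Nat.one_le_pow _ _ (by omega)
    have h3 : 2 + (x + 3) ≤ (x + 2) ^ 3 := by
      nlinarith [Nat.zero_le (x ^ 3), Nat.zero_le (x ^ 2)]
    rw [h1]
    nlinarith [Nat.mul_le_mul h2 h3, Nat.mul_le_mul_left ((x + 2) ^ (2 * c)) h3]
  · intro A' hA'
    refine ⟨w, hw, ?_⟩
    rw [← hout]
    unfold Alg.out
    refine hU' _ ?_
    intro u hu
    exact hA' (idx u) (Finset.mem_image_of_mem idx hu)

end Pool.Agent.W891.LS.NEL
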